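import Pool.Agent.W188.QS.Stm2
set_option autoImplicit false

/-!
# Project QS part 2: FOLD, the four sides of the rectangle
-/

open Complex MeasureTheory Set Filter Topology

namespace Pool.Agent.W571.QS

open Pool.Agent.W188.QS

/-- `F G` -/
noncomputable def PF (k : ℕ) (T Δ : ℝ) (s : ℂ) : ℂ := FF k s * GG T Δ s

theorem GG_diff (T Δ : ℝ) (s : ℂ) : DifferentiableAt ℂ (GG T Δ) s := by
  unfold GG
  exact (((differentiableAt_id.sub_const _).div_const _).pow 2).cexp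

theorem PF_diff (h1 : StBasic) (k : ℕ) (T Δ : ℝ) {s : ℂ} (hs : 1 ≤ s.im) :
    DifferentiableAt ℂ (PF k T Δ) s := by
  obtain ⟨hX, -, hZ, -⟩ := h1 s hs
  exact ((hZ.pow (2 * k)).mul (hX.pow k)).mul (GG_diff T Δ s)

theorem ww_diff (h1 : StBasic) (c : ℂ) (N : ℕ) {s : ℂ} (hs : 1 ≤ s.im) :
    DifferentiableAt ℂ (ww c N) s := by
  obtain ⟨hX, hX0, -⟩ := h1 s hs
  exact ((hX.inv hX0).pow N).const_mul c

theorem ww_ne (h1 : StBasic) {c : ℂ} (hc : ‖c‖ = 1) (N : ℕ) {s : ℂ} (hs : 1 ≤ s.im) :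
    ww c N s ≠ 0 := by
  obtain ⟨hX, hX0, -⟩ := h1 s hs
  unfold ww
  refine mul_ne_zero ?_ (pow_ne_zero _ (inv_ne_zero hX0))
  intro h
  rw [h, norm_zero] at hc
  exact absurd hc (by norm_num)

theorem rf_mk (x y : ℝ) : rf (⟨x, y⟩ : ℂ) = ⟨1 - x, y⟩ := by
  apply Complex.ext <;> simp [rf]

theorem RR_rf (h1 : StBasic) {c : ℂ} (hc : ‖c‖ = 1) (k N : ℕ) (T Δ : ℝ) {s : ℂ} (hs : 1 ≤ s.im) :
    RR c k N T Δ (rf s) = -(starRingEnd ℂ) (QQ c k N T Δ s) := by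
  have hW := ww_ne h1 hc N hs
  obtain ⟨-, hX, -, -, -, hF, hG, hw⟩ := h1 s hs
  unfold RR QQ
  rw [hF, hG, hw c N hc]
  simp only [map_div₀, map_mul, map_sub, map_one]
  have h2 : (starRingEnd ℂ) (ww c N s) ≠ 0 := by
    intro h
    exact hW ((map_eq_zero _).1 h)
  generalize (starRingEnd ℂ) (ww c N s) = W at h2 ⊢
  by_cases h : W = 1
  · rw [h]
    simp
  · have h3 : 1 - W ≠ 0 := fun h' => h (sub_eq_zero.1 h').symm
    have h4 : 1 - W⁻¹ = -((1 - W) / W) := by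
      field_simp
      ring
    rw [h4]
    field_simp

theorem bnd {w : ℂ} (h : w.re ≤ 0) : 1 ≤ ‖1 - w‖ ∧ ‖w‖ ≤ ‖1 - w‖ := by
  constructor
  · refine le_trans ?_ (Complex.re_le_norm (1 - w))
    rw [Complex.sub_re, Complex.one_re]
    linarith
  · rw [← sq_le_sq₀ (norm_nonneg _) (norm_nonneg _), ← Complex.normSq_eq_norm_sq,
      ← Complex.normSq_eq_norm_sq, Complex.normSq_apply, Complex.normSq_apply, Complex.sub_re,
      Complex.sub_im, Complex.one_re, Complex.one_im]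
    nlinarith

theorem norm_RR {c : ℂ} {k N : ℕ} {T Δ : ℝ} {s : ℂ} (h : (ww c N s).re ≤ 0) :
    ‖RR c k N T Δ s‖ ≤ ‖FF k s * GG T Δ s‖ := by
  unfold RR
  rw [norm_div]
  exact div_le_self (norm_nonneg _) (bnd h).1

theorem norm_QQ {c : ℂ} {k N : ℕ} {T Δ : ℝ} {s : ℂ} (h : (ww c N s).re ≤ 0) :
    ‖QQ c k N T Δ s‖ ≤ ‖FF k s * GG T Δ s‖ := by
  unfold QQ
  rw [norm_div, norm_mul _ (ww c N s), mul_div_assoc]
  refine mul_le_of_le_one_right (norm_nonneg _) ?_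
  obtain ⟨h1, h2⟩ := bnd h
  exact (div_le_one (by linarith)).2 h2

/-- the horizontal sides -/
theorem hor (h1 : StBasic) {c : ℂ} (hc : ‖c‖ = 1) {k N : ℕ} {T Δ a M : ℝ} (ha : 100 ≤ a)
    (hg : Good c N a)
    (hM : ∀ σ : ℝ, 1 / 2 ≤ σ → σ ≤ 4 → ‖FF k (⟨σ, a⟩ : ℂ) * GG T Δ (⟨σ, a⟩ : ℂ)‖ ≤ M) :
    ‖∫ x in (-3 : ℝ)..4, RR c k N T Δ (⟨x, a⟩ : ℂ)‖ ≤ 7 * M := by
  have h2 : ∀ x ∈ Set.uIoc (-3 : ℝ) 4, ‖RR c k N T Δ (⟨x, a⟩ : ℂ)‖ ≤ M := by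
    intro x hx
    rw [Set.uIoc_of_le (by norm_num)] at hx
    by_cases hx2 : 1 / 2 ≤ x
    · exact (norm_RR (hg.2 x hx2 hx.2)).trans (hM x hx2 hx.2)
    · push Not at hx2
      have h3 : (⟨x, a⟩ : ℂ) = rf (⟨1 - x, a⟩ : ℂ) := by
        rw [rf_mk, sub_sub_cancel]
      rw [h3, RR_rf h1 hc k N T Δ (s := ⟨1 - x, a⟩) (by change (1 : ℝ) ≤ a; linarith), norm_neg,
        RCLike.norm_conj]
      have h4 : 1 / 2 ≤ 1 - x := by linarith
      have h5 : 1 - x ≤ 4 := by linarith [hx.1]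
      exact (norm_QQ (hg.2 _ h4 h5)).trans (hM _ h4 h5)
  have h3 := intervalIntegral.norm_integral_le_of_norm_le_const h2
  have h4 : |(4 : ℝ) - -3| = 7 := by norm_num
  rw [h4] at h3
  linarith

/-- Cauchy's theorem for `F G` -/
theorem cauchy (h1 : StBasic) (k : ℕ) (T Δ a b : ℝ) (ha : 100 ≤ a) (hab : a < b) :
    (∫ x in (1 / 2 : ℝ)..4, PF k T Δ (⟨x, a⟩ : ℂ)) - (∫ x in (1 / 2 : ℝ)..4, PF k T Δ (⟨x, b⟩ : ℂ))
      + I * (∫ y in a..b, PF k T Δ (⟨4, y⟩ : ℂ)) - I * (∫ y in a..b, PF k T Δ (⟨1 / 2, y⟩ : ℂ))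
      = 0 := by
  have h2 := Complex.integral_boundary_rect_eq_zero_of_differentiableOn (PF k T Δ)
    (⟨1 / 2, a⟩ : ℂ) (⟨4, b⟩ : ℂ) (by
      intro s hs
      refine (PF_diff h1 k T Δ ?_).differentiableWithinAt
      have h3 := hs.2
      simp only [Set.mem_preimage] at h3
      rw [Set.uIcc_of_le hab.le] at h3
      linarith [h3.1])
  simp only [smul_eq_mul] at h2
  have h3 : ∀ x y : ℝ, (x : ℂ) + (y : ℂ) * I = (⟨x, y⟩ : ℂ) := fun x y =>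
    (Complex.mk_eq_add_mul_I x y).symm
  simp only [h3] at h2
  exact h2

theorem ww_norm_lt (h2 : StLine) {c : ℂ} (hc : ‖c‖ = 1) {N : ℕ} (hN : 1 ≤ N) {y : ℝ}
    (hy : 50 ≤ y) : ‖ww c N (⟨4, y⟩ : ℂ)‖ < 1 := by
  obtain ⟨-, -, -, -, -, h6, -⟩ := h2
  have h7 : 1 < ‖XX (⟨4, y⟩ : ℂ)‖ := h6 _ (by norm_num) (le_refl _) hy
  unfold ww
  rw [norm_mul, hc, one_mul, norm_pow, norm_inv]
  exact pow_lt_one₀ (inv_nonneg.2 (norm_nonneg _)) (inv_lt_one_of_one_lt₀ h7) (by omega)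

theorem one_sub_ww (h2 : StLine) {c : ℂ} (hc : ‖c‖ = 1) {N : ℕ} (hN : 1 ≤ N) {y : ℝ}
    (hy : 50 ≤ y) : 1 - ww c N (⟨4, y⟩ : ℂ) ≠ 0 := by
  intro h
  have h3 := ww_norm_lt h2 hc hN hy
  rw [← sub_eq_zero.1 h, norm_one] at h3
  exact lt_irrefl _ h3

theorem vert_cont (x : ℝ) : Continuous (fun y : ℝ => (⟨x, y⟩ : ℂ)) := by
  have : (fun y : ℝ => (⟨x, y⟩ : ℂ)) = fun y : ℝ => (x : ℂ) + (y : ℂ) * I := by
    funext y
    exact Complex.mk_eq_add_mul_I x y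
  rw [this]
  fun_prop

theorem fp_eq (t : ℝ) : fp t = (⟨4, t⟩ : ℂ) := by
  unfold fp
  rw [Complex.mk_eq_add_mul_I]
  norm_num

theorem cp_eq (t : ℝ) : cp t = (⟨1 / 2, t⟩ : ℂ) := by
  unfold cp
  rw [Complex.mk_eq_add_mul_I]
  norm_num

/-- FOLD -/
theorem qs_fold (h1 : StBasic) (h2 : StLine) : StFold := by
  intro c k N T Δ a b M hc hN hΔ ha hab hga hgb hMa hMb
  have hM0 : 0 ≤ M := (norm_nonneg _).trans (hMa 4 (by norm_num) (le_refl _))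
  -- the four integrals
  have hA := hor h1 hc ha hga hMa
  have hB := hor h1 hc (by linarith : (100 : ℝ) ≤ b) hgb hMb
  have hq : (fun t : ℝ => QQ c k N T Δ (fp t)) = fun t : ℝ => QQ c k N T Δ (⟨4, t⟩ : ℂ) := by
    funext t
    rw [fp_eq]
  rw [hq]
  -- left side
  have hL : (∫ y in a..b, RR c k N T Δ (⟨-3, y⟩ : ℂ)) =
      -(starRingEnd ℂ) (∫ y in a..b, QQ c k N T Δ (⟨4, y⟩ : ℂ)) := by
    rw [← intervalIntegral.intervalIntegral_conj, ← intervalIntegral.integral_neg]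
    refine intervalIntegral.integral_congr (fun y hy => ?_)
    rw [Set.uIcc_of_le hab.le] at hy
    have h3 : (⟨-3, y⟩ : ℂ) = rf (⟨4, y⟩ : ℂ) := by
      rw [rf_mk]
      norm_num
    change RR c k N T Δ (⟨-3, y⟩ : ℂ) = -(starRingEnd ℂ) (QQ c k N T Δ (⟨4, y⟩ : ℂ))
    rw [h3]
    exact RR_rf h1 hc k N T Δ (s := ⟨4, y⟩) (by change (1 : ℝ) ≤ y; linarith [hy.1])
  -- right side
  have hcP : ContinuousOn (fun y : ℝ => PF k T Δ (⟨4, y⟩ : ℂ)) (Set.uIcc a b) := by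
    intro y hy
    rw [Set.uIcc_of_le hab.le] at hy
    refine ContinuousAt.continuousWithinAt ?_
    have h3 : ContinuousAt (PF k T Δ) (⟨4, y⟩ : ℂ) :=
      (PF_diff h1 k T Δ (by change (1 : ℝ) ≤ y; linarith [hy.1])).continuousAt
    exact ContinuousAt.comp (f := fun y : ℝ => (⟨4, y⟩ : ℂ)) h3 (vert_cont 4).continuousAt
  have hcQ : ContinuousOn (fun y : ℝ => QQ c k N T Δ (⟨4, y⟩ : ℂ)) (Set.uIcc a b) := by
    intro y hy
    rw [Set.uIcc_of_le hab.le] at hy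
    refine ContinuousAt.continuousWithinAt ?_
    have hy1 : (1 : ℝ) ≤ y := by linarith [hy.1]
    have h3 : ContinuousAt (QQ c k N T Δ) (⟨4, y⟩ : ℂ) := by
      have h4 := (PF_diff h1 k T Δ (s := ⟨4, y⟩) hy1).continuousAt
      have h5 := (ww_diff h1 c N (s := ⟨4, y⟩) hy1).continuousAt
      exact (h4.mul h5).div (continuousAt_const.sub h5)
        (one_sub_ww h2 hc hN (by linarith [hy.1]))
    exact ContinuousAt.comp (f := fun y : ℝ => (⟨4, y⟩ : ℂ)) h3 (vert_cont 4).continuousAt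
  have hR : (∫ y in a..b, RR c k N T Δ (⟨4, y⟩ : ℂ)) =
      (∫ y in a..b, PF k T Δ (⟨4, y⟩ : ℂ)) + ∫ y in a..b, QQ c k N T Δ (⟨4, y⟩ : ℂ) := by
    rw [← intervalIntegral.integral_add hcP.intervalIntegrable hcQ.intervalIntegrable]
    refine intervalIntegral.integral_congr (fun y hy => ?_)
    rw [Set.uIcc_of_le hab.le] at hy
    have h3 := one_sub_ww h2 hc hN (y := y) (by linarith [hy.1])
    change RR c k N T Δ (⟨4, y⟩ : ℂ) = PF k T Δ (⟨4, y⟩ : ℂ) + QQ c k N T Δ (⟨4, y⟩ : ℂ)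
    unfold RR QQ PF
    field_simp
    ring
  -- middle
  have hmid : (∫ y in a..b, PF k T Δ (⟨1 / 2, y⟩ : ℂ)) =
      ((∫ t in a..b, Zk k t * gg T Δ t : ℝ) : ℂ) := by
    rw [← intervalIntegral.integral_ofReal]
    refine intervalIntegral.integral_congr (fun y hy => ?_)
    rw [Set.uIcc_of_le hab.le] at hy
    obtain ⟨-, -, -, h4, h5, -⟩ := h2
    change PF k T Δ (⟨1 / 2, y⟩ : ℂ) = ((Zk k y * gg T Δ y : ℝ) : ℂ)
    unfold PF
    rw [← cp_eq, h4 y (by linarith [hy.1]) k, h5, Complex.ofReal_mul]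
  have hca := cauchy h1 k T Δ a b ha hab
  have hsm : ∀ e : ℝ, (∀ σ : ℝ, 1 / 2 ≤ σ → σ ≤ 4 →
      ‖FF k (⟨σ, e⟩ : ℂ) * GG T Δ (⟨σ, e⟩ : ℂ)‖ ≤ M) →
      ‖∫ x in (1 / 2 : ℝ)..4, PF k T Δ (⟨x, e⟩ : ℂ)‖ ≤ 7 / 2 * M := by
    intro e he
    have h3 : ∀ x ∈ Set.uIoc (1 / 2 : ℝ) 4, ‖PF k T Δ (⟨x, e⟩ : ℂ)‖ ≤ M := by
      intro x hx
      rw [Set.uIoc_of_le (by norm_num)] at hx
      exact he x hx.1.le hx.2
    have h4 := intervalIntegral.norm_integral_le_of_norm_le_const h3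
    have h5 : |(4 : ℝ) - 1 / 2| = 7 / 2 := by norm_num
    rw [h5] at h4
    linarith
  have hsa := hsm a hMa
  have hsb := hsm b hMb
  unfold RI
  rw [hL, hR, ← hmid]
  generalize (∫ y in a..b, QQ c k N T Δ (⟨4, y⟩ : ℂ)) = q at *
  generalize (∫ x in (-3 : ℝ)..4, RR c k N T Δ (⟨x, a⟩ : ℂ)) = A at *
  generalize (∫ x in (-3 : ℝ)..4, RR c k N T Δ (⟨x, b⟩ : ℂ)) = B at *
  generalize (∫ x in (1 / 2 : ℝ)..4, PF k T Δ (⟨x, a⟩ : ℂ)) = A' at *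
  generalize (∫ x in (1 / 2 : ℝ)..4, PF k T Δ (⟨x, b⟩ : ℂ)) = B' at *
  generalize (∫ y in a..b, PF k T Δ (⟨4, y⟩ : ℂ)) = P at *
  generalize (∫ y in a..b, PF k T Δ (⟨1 / 2, y⟩ : ℂ)) = R at *
  have h6 : A - B + I * (P + q) - I * -(starRingEnd ℂ) q - I * R =
      A - B + (B' - A') + (I * q + I * (starRingEnd ℂ) q) := by
    linear_combination hca
  rw [h6]
  have n1 : ‖I * q‖ = ‖q‖ := by rw [norm_mul, Complex.norm_I, one_mul]
  have n2 : ‖I * (starRingEnd ℂ) q‖ = ‖q‖ := by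
    rw [norm_mul, Complex.norm_I, one_mul, RCLike.norm_conj]
  have n3 := norm_add_le (A - B + (B' - A')) (I * q + I * (starRingEnd ℂ) q)
  have n4 := norm_add_le (A - B) (B' - A')
  have n5 := norm_sub_le A B
  have n6 := norm_sub_le B' A'
  have n7 := norm_add_le (I * q) (I * (starRingEnd ℂ) q)
  rw [n1, n2] at n7
  linarith

end Pool.Agent.W571.QS
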