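import Pool.Agent.W188.QS.Stm2
set_option autoImplicit false

/-!
# Project QS part 2: MEAS, integrals for the two measures
-/

open Complex MeasureTheory Set Filter Topology

namespace Pool.Agent.W571.QS

open Pool.Agent.W188.QS

theorem Zk_nonneg (k : ℕ) (t : ℝ) : 0 ≤ Zk k t := pow_nonneg (norm_nonneg _) _

theorem cp_ne_one (t : ℝ) : cp t ≠ 1 := by
  intro h
  have h1 := congrArg Complex.re h
  unfold cp at h1
  norm_num at h1

theorem Zk_cont (k : ℕ) : Continuous (Zk k) := by
  unfold Zk
  refine Continuous.pow (Continuous.norm ?_) _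
  rw [continuous_iff_continuousAt]
  intro t
  have h1 : ContinuousAt riemannZeta (cp t) :=
    (differentiableAt_riemannZeta (cp_ne_one t)).continuousAt
  have h2 : Continuous cp := by
    unfold cp
    fun_prop
  exact ContinuousAt.comp (f := cp) h1 h2.continuousAt

/-- integrals with respect to `muk` -/
theorem muk_int (k : ℕ) (g : ℝ → ℝ) {S : Set ℝ} (hS : MeasurableSet S) (h : S ⊆ Ioi 100) :
    ∫ t in S, g t ∂(muk k) = ∫ t in S, Zk k t * g t := by
  unfold muk
  rw [restrict_withDensity hS, Measure.restrict_restrict hS, Set.inter_eq_left.2 h,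
    integral_withDensity_eq_integral_toReal_smul]
  · refine integral_congr_ae (Filter.Eventually.of_forall (fun t => ?_))
    change (ENNReal.ofReal (Zk k t)).toReal • g t = Zk k t * g t
    rw [ENNReal.toReal_ofReal (Zk_nonneg k t), smul_eq_mul]
  · exact (Zk_cont k).measurable.ennreal_ofReal
  · exact Filter.Eventually.of_forall (fun t => ENNReal.ofReal_lt_top)

theorem muk_real (k : ℕ) {S : Set ℝ} (hS : MeasurableSet S) (h : S ⊆ Ioi 100) :
    (muk k).real S = ∫ t in S, Zk k t := by
  have h1 := muk_int k (fun _ => 1) hS h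
  rw [setIntegral_const, smul_eq_mul, mul_one] at h1
  rw [h1]
  simp only [mul_one]

theorem muk_Iic (k : ℕ) (x : ℝ) : muk k (Iic x) < ⊤ := by
  unfold muk
  rw [withDensity_apply _ measurableSet_Iic, Measure.restrict_restrict measurableSet_Iic]
  have h1 : Iic x ∩ Ioi (100 : ℝ) = Ioc 100 x := by
    ext t
    simp only [Set.mem_inter_iff, Set.mem_Iic, Set.mem_Ioi, Set.mem_Ioc]
    exact and_comm
  rw [h1]
  have h2 : IntegrableOn (Zk k) (Ioc 100 x) volume := (Zk_cont k).integrableOn_Ioc
  exact Integrable.lintegral_lt_top h2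

/-- restrictions of `nuk` -/
theorem nuk_restrict (c : ℂ) (k N : ℕ) {S : Set ℝ} (hS : MeasurableSet S)
    (hf : (PP c N ∩ S).Finite) :
    (nuk c k N).restrict S =
      ∑ p ∈ hf.toFinset, ENNReal.ofReal (rho k N p) • Measure.dirac (p : ℝ) := by
  refine Measure.ext (fun t ht => ?_)
  rw [Measure.restrict_apply ht]
  unfold nuk
  rw [Measure.sum_apply _ (ht.inter hS), Measure.finsetSum_apply]
  have h1 : ∀ p : PP c N, (ENNReal.ofReal (rho k N p) • Measure.dirac (p : ℝ)) (t ∩ S) =
      (fun x : ℝ => ENNReal.ofReal (rho k N x) * (t ∩ S).indicator 1 x) p := by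
    intro p
    rw [Measure.smul_apply, Measure.dirac_apply' _ (ht.inter hS), smul_eq_mul]
  rw [tsum_congr h1, tsum_subtype (PP c N)
    (fun x : ℝ => ENNReal.ofReal (rho k N x) * (t ∩ S).indicator 1 x),
    tsum_eq_sum (s := hf.toFinset)]
  · refine Finset.sum_congr rfl (fun x hx => ?_)
    rw [Set.Finite.mem_toFinset] at hx
    rw [Set.indicator_of_mem hx.1, Measure.smul_apply, Measure.dirac_apply' _ ht, smul_eq_mul]
    congr 1
    by_cases hxt : x ∈ t
    · have h2 : x ∈ t ∩ S := ⟨hxt, hx.2⟩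
      rw [Set.indicator_of_mem hxt, Set.indicator_of_mem h2]
    · have h2 : x ∉ t ∩ S := fun h => hxt h.1
      rw [Set.indicator_of_notMem hxt, Set.indicator_of_notMem h2]
  · intro x hx
    rw [Set.Finite.mem_toFinset] at hx
    by_cases hxP : x ∈ PP c N
    · have h2 : x ∉ t ∩ S := fun h => hx ⟨hxP, h.2⟩
      rw [Set.indicator_of_mem hxP, Set.indicator_of_notMem h2, mul_zero]
    · rw [Set.indicator_of_notMem hxP]

theorem rho_nonneg (h : StLine) {c : ℂ} {k N : ℕ} {t : ℝ} (ht : t ∈ PP c N) : 0 ≤ rho k N t := by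
  have h1 : 100 < t := ht.1
  have h2 : 1 ≤ lam t := (h.1 t (by linarith)).2.2
  have h3 := Zk_nonneg k t
  unfold rho
  have := Real.pi_pos
  positivity

theorem nuk_int (h : StLine) (c : ℂ) (k N : ℕ) (g : ℝ → ℝ) {S : Set ℝ} (hS : MeasurableSet S)
    (hf : (PP c N ∩ S).Finite) :
    ∫ t in S, g t ∂(nuk c k N) = ∑ᶠ t ∈ PP c N ∩ S, rho k N t * g t := by
  rw [nuk_restrict c k N hS hf, finsum_mem_eq_finite_toFinset_sum _ hf, integral_finsetSum_measure]
  · refine Finset.sum_congr rfl (fun x hx => ?_)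
    rw [Set.Finite.mem_toFinset] at hx
    rw [integral_smul_measure, integral_dirac, ENNReal.toReal_ofReal (rho_nonneg h hx.1),
      smul_eq_mul]
  · intro x _
    refine Integrable.smul_measure ?_ ENNReal.ofReal_ne_top
    exact integrable_dirac (by simp)

theorem nuk_real (h : StLine) (c : ℂ) (k N : ℕ) {S : Set ℝ} (hS : MeasurableSet S)
    (hf : (PP c N ∩ S).Finite) :
    (nuk c k N).real S = ∑ᶠ t ∈ PP c N ∩ S, rho k N t := by
  have h1 := nuk_int h c k N (fun _ => 1) hS hf
  rw [setIntegral_const, smul_eq_mul, mul_one] at h1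
  rw [h1]
  simp only [mul_one]

theorem nuk_lt (c : ℂ) (k N : ℕ) {S : Set ℝ} (hS : MeasurableSet S)
    (hf : (PP c N ∩ S).Finite) : nuk c k N S < ⊤ := by
  have h1 : nuk c k N S = (nuk c k N).restrict S Set.univ := by
    rw [Measure.restrict_apply MeasurableSet.univ, Set.univ_inter]
  rw [h1, nuk_restrict c k N hS hf, Measure.finsetSum_apply, ENNReal.sum_lt_top]
  intro x _
  rw [Measure.smul_apply, Measure.dirac_apply' _ MeasurableSet.univ, smul_eq_mul]
  exact ENNReal.mul_lt_top ENNReal.ofReal_lt_top (by simp)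

/-- MEAS -/
theorem qs_meas (h : StLine) : StMeas := by
  intro c k N hc hk hN
  have hfin : ∀ x : ℝ, (PP c N ∩ Iic x).Finite :=
    h.2.2.2.2.2.2.2.2.2 c N hc hN
  refine ⟨muk_Iic k, fun x => nuk_lt c k N measurableSet_Iic (hfin x), ?_, ?_, ?_, ?_, ?_⟩
  · intro g _ a b ha hab
    rw [muk_int k g measurableSet_Ioo (fun t ht => lt_of_le_of_lt ha ht.1),
      intervalIntegral.integral_of_le hab, integral_Ioc_eq_integral_Ioo]
  · intro g _ a b
    refine nuk_int h c k N g measurableSet_Ioo ((hfin b).subset ?_)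
    rintro t ⟨h1, h2⟩
    exact ⟨h1, h2.2.le⟩
  · intro a b ha hab
    rw [muk_real k measurableSet_Ioc (fun t ht => lt_of_le_of_lt ha ht.1),
      intervalIntegral.integral_of_le hab]
  · intro b hb
    have h1 : (muk k).real (Ioc 0 b) = (muk k).real (Ioc 100 b) := by
      have h2 : muk k (Ioc 0 b) = muk k (Ioc 100 b) := by
        unfold muk
        rw [withDensity_apply _ measurableSet_Ioc, withDensity_apply _ measurableSet_Ioc,
          Measure.restrict_restrict measurableSet_Ioc, Measure.restrict_restrict measurableSet_Ioc]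
        have h3 : Ioc (0 : ℝ) b ∩ Ioi (100 : ℝ) = Ioc 100 b ∩ Ioi 100 := by
          ext t
          simp only [Set.mem_inter_iff, Set.mem_Ioi, Set.mem_Ioc]
          constructor
          · rintro ⟨⟨h4, h5⟩, h6⟩
            exact ⟨⟨h6, h5⟩, h6⟩
          · rintro ⟨⟨h4, h5⟩, h6⟩
            exact ⟨⟨by linarith, h5⟩, h6⟩
        rw [h3]
      rw [measureReal_def, h2, measureReal_def]
    rw [h1, muk_real k measurableSet_Ioc (fun t ht => ht.1), intervalIntegral.integral_of_le hb]
  · intro a b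
    refine nuk_real h c k N measurableSet_Ioc ((hfin b).subset ?_)
    rintro t ⟨h1, h2⟩
    exact ⟨h1, h2.2⟩

end Pool.Agent.W571.QS
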